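import Mathlib
import Pool.Agent.H.MP_f59665_co.A

namespace Pool.Agent.Results.MP_f59665_co.Superquadratic

open Pool.Agent.H.MP_f59665_co Filter

lemma expo (a C : ℝ) (ha : a < 5 / 2) :
    ∃ (V : Type) (_ : Fintype V) (G : SimpleGraph V),
      C * ((nNeg G : ℝ) + 1) ^ a < (nPos G : ℝ) := by
  wlog h0 : 0 ≤ a ∧ 0 ≤ C generalizing a C
  · obtain ⟨V, i, G, h⟩ := this (max a 0) (max C 0) (max_lt ha (by norm_num))
      ⟨le_max_right _ _, le_max_right _ _⟩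
    refine ⟨V, i, G, lt_of_le_of_lt ?_ h⟩
    have h1 : (1 : ℝ) ≤ (nNeg G : ℝ) + 1 := by linarith [Nat.cast_nonneg (α := ℝ) (nNeg G)]
    have h2 := Real.rpow_le_rpow_of_exponent_le h1 (le_max_left a 0)
    have h3 : 0 ≤ ((nNeg G : ℝ) + 1) ^ a := by positivity
    calc C * ((nNeg G : ℝ) + 1) ^ a ≤ max C 0 * ((nNeg G : ℝ) + 1) ^ a :=
          mul_le_mul_of_nonneg_right (le_max_left _ _) h3
      _ ≤ _ := mul_le_mul_of_nonneg_left h2 (le_max_right _ _)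
  obtain ⟨h0, hC⟩ := h0
  have ht : Tendsto (fun q : ℕ => (q : ℝ) ^ (5 - 2 * a)) atTop atTop :=
    (tendsto_rpow_atTop (by linarith)).comp tendsto_natCast_atTop_atTop
  obtain ⟨q, hq1, hq2⟩ := ((ht.eventually_gt_atTop (2 * (C * 7 ^ a))).and
    (eventually_ge_atTop 3)).exists
  haveI : NeZero q := ⟨by omega⟩
  refine ⟨Vq q, inferInstance, G q, ?_⟩
  obtain ⟨b1, b2⟩ := bounds q
  have hq : (3 : ℝ) ≤ q := by exact_mod_cast hq2
  have b1' : (nNeg (G q) : ℝ) ≤ 6 * (q : ℝ) ^ 2 := by exact_mod_cast b1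
  have b2' : (q : ℝ) ^ 5 ≤ nPos (G q) + 6 * (q : ℝ) ^ 2 := by exact_mod_cast b2
  have hq0 : (0 : ℝ) < q := by linarith
  have e1 : ((nNeg (G q) : ℝ) + 1) ^ a ≤ 7 ^ a * (q : ℝ) ^ (2 * a) := by
    rw [Real.rpow_mul hq0.le, ← Real.mul_rpow (by norm_num) (by positivity)]
    refine Real.rpow_le_rpow (by positivity) ?_ h0
    rw [Real.rpow_two]
    nlinarith
  have e2 : (q : ℝ) ^ (5 - 2 * a) * (q : ℝ) ^ (2 * a) = (q : ℝ) ^ 5 := by
    rw [← Real.rpow_add hq0]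
    norm_num
  have e3 : (0 : ℝ) < (q : ℝ) ^ (2 * a) := by positivity
  have e4 : 12 * (q : ℝ) ^ 2 ≤ (q : ℝ) ^ 5 := by
    have : (27 : ℝ) ≤ (q : ℝ) ^ 3 := by
      calc (27 : ℝ) = 3 ^ 3 := by norm_num
        _ ≤ _ := pow_le_pow_left₀ (by norm_num) hq 3
    nlinarith [sq_nonneg (q : ℝ)]
  have e5 := mul_lt_mul_of_pos_right hq1 e3
  have e6 := mul_le_mul_of_nonneg_left e1 hC
  nlinarith

theorem result :
    (∀ q : ℕ, 1 ≤ q → ∃ (V : Type) (_ : Fintype V) (G : SimpleGraph V),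
      Fintype.card V = q ^ 5 ∧ nNeg G ≤ 6 * q ^ 2 ∧ q ^ 5 ≤ nPos G + 6 * q ^ 2) ∧
    (∀ a C : ℝ, a < 5 / 2 → ∃ (V : Type) (_ : Fintype V) (G : SimpleGraph V),
      C * ((nNeg G : ℝ) + 1) ^ a < (nPos G : ℝ)) ∧
    (∀ f : Polynomial ℝ, f.natDegree ≤ 2 → ∃ (V : Type) (_ : Fintype V) (G : SimpleGraph V),
      f.eval (nNeg G : ℝ) < (nPos G : ℝ)) := by
  refine ⟨fun q hq => ?_, fun a C ha => expo a C ha, fun f hf => ?_⟩
  · haveI : NeZero q := ⟨by omega⟩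
    exact ⟨Vq q, inferInstance, G q, by simp [ZMod.card]; ring, bounds q⟩
  · obtain ⟨V, i, G, h⟩ := expo 2 (|f.coeff 0| + |f.coeff 1| + |f.coeff 2|) (by norm_num)
    refine ⟨V, i, G, lt_of_le_of_lt ?_ h⟩
    rw [Polynomial.eval_eq_sum_range' (n := 3) (by omega), Real.rpow_two]
    simp only [Finset.sum_range_succ, Finset.sum_range_zero]
    have hx : (0 : ℝ) ≤ nNeg G := Nat.cast_nonneg _
    generalize (nNeg G : ℝ) = x at hx
    have a0 := le_abs_self (f.coeff 0)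
    have a1 := le_abs_self (f.coeff 1)
    have a2 := le_abs_self (f.coeff 2)
    have p0 := abs_nonneg (f.coeff 0)
    have p1 := abs_nonneg (f.coeff 1)
    have p2 := abs_nonneg (f.coeff 2)
    have q1 := mul_le_mul_of_nonneg_right a1 hx
    have q2 := mul_le_mul_of_nonneg_right a2 (sq_nonneg x)
    have r0 := mul_nonneg p0 hx
    have r1 := mul_nonneg p1 hx
    have r2 := mul_nonneg p2 hx
    have s0 := mul_nonneg p0 (sq_nonneg x)
    have s1 := mul_nonneg p1 (sq_nonneg x)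
    nlinarith

end Pool.Agent.Results.MP_f59665_co.Superquadratic
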